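import Pool.Agent.Helper15_SIU.Stmts

/-!
# MP_021b97_an: AP1, invariant functions are uniformly continuous near `C × 𝕂`
-/

set_option autoImplicit false

open MeasureTheory Filter Topology

namespace Pool.Agent.SIU.H17

/-- a compact set of normalised points -/
def KK (R : ℝ) : Set E7 :=
  {z | AA z = 1 ∧ ‖z 2‖ ≤ 1 ∧ ‖z 3‖ ≤ 1 ∧ z 4 = 1 ∧ ‖z 5‖ ≤ R ∧ z 6 = 1}

theorem KK_subset (R : ℝ) : KK R ⊆ X2.U := by
  rintro z ⟨h1, _, _, h4, _, h6⟩
  rw [mem_U]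
  refine ⟨(AA_ne_zero z).mp (by rw [h1]; exact one_ne_zero), Or.inr (Or.inr ?_), Or.inr ?_⟩
  · rw [h4]; exact one_ne_zero
  · rw [h6]; exact one_ne_zero

theorem isCompact_KK (R : ℝ) : IsCompact (KK R) := by
  rw [Metric.isCompact_iff_isClosed_bounded]
  constructor
  · have h : KK R = {z | AA z = 1} ∩ ({z | ‖z 2‖ ≤ 1} ∩ ({z | ‖z 3‖ ≤ 1} ∩ ({z | z 4 = 1} ∩
        ({z | ‖z 5‖ ≤ R} ∩ {z | z 6 = 1})))) := rfl
    rw [h]
    refine (isClosed_eq continuous_AA continuous_const).inter ?_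
    refine (isClosed_le (by fun_prop) continuous_const).inter ?_
    refine (isClosed_le (by fun_prop) continuous_const).inter ?_
    refine (isClosed_eq (by fun_prop) continuous_const).inter ?_
    refine (isClosed_le (by fun_prop) continuous_const).inter ?_
    exact isClosed_eq (by fun_prop) continuous_const
  · rw [Metric.isBounded_iff_subset_closedBall 0]
    refine ⟨max 1 R, ?_⟩
    rintro z ⟨h1, h2, h3, h4, h5, h6⟩
    rw [mem_closedBall_zero_iff, pi_norm_le_iff_of_nonneg (le_max_of_le_left zero_le_one)]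
    have h0 : ‖z 0‖ ≤ 1 ∧ ‖z 1‖ ≤ 1 := by
      unfold AA at h1
      constructor <;> nlinarith [norm_nonneg (z 0), norm_nonneg (z 1), sq_nonneg ‖z 0‖, sq_nonneg ‖z 1‖]
    intro i
    fin_cases i
    · exact h0.1.trans (le_max_left _ _)
    · exact h0.2.trans (le_max_left _ _)
    · exact h2.trans (le_max_left _ _)
    · exact h3.trans (le_max_left _ _)
    · show ‖z 4‖ ≤ _
      rw [h4, norm_one]; exact le_max_left _ _
    · exact h5.trans (le_max_right _ _)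
    · show ‖z 6‖ ≤ _
      rw [h6, norm_one]; exact le_max_left _ _

theorem ap1 : Ap1Stmt := by
  intro 𝕂 hK a ha η hη
  obtain ⟨R, hR⟩ : ∃ R : ℝ, ∀ y ∈ 𝕂, |y| ≤ R := by
    obtain ⟨R, hR⟩ := hK.isBounded.subset_closedBall 0
    exact ⟨R, fun y hy => by simpa using hR hy⟩
  have hcont : ContinuousOn a (KK (R + 1)) := (ha.1.continuousOn).mono (KK_subset _)
  have huc := (isCompact_KK (R + 1)).uniformContinuousOn_of_continuous hcont
  rw [Metric.uniformContinuousOn_iff] at huc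
  obtain ⟨δ, hδ, huc⟩ := huc η hη
  obtain ⟨j, hj⟩ : ∃ j : ℕ, 1 / (min (δ ^ 2) (min δ 1)) < (j : ℝ) := exists_nat_gt _
  have hmin : 0 < min (δ ^ 2) (min δ 1) := lt_min (by positivity) (lt_min hδ one_pos)
  have hj0 : (0 : ℝ) < j := lt_trans (by positivity) hj
  have hj1 : 1 / (j : ℝ) < min (δ ^ 2) (min δ 1) := by
    rw [div_lt_iff₀ hmin] at hj
    rw [div_lt_iff₀ hj0]
    linarith
  have hjd2 : 1 / (j : ℝ) < δ ^ 2 := lt_of_lt_of_le hj1 (min_le_left _ _)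
  have hjd : 1 / (j : ℝ) < δ := lt_of_lt_of_le hj1 ((min_le_right _ _).trans (min_le_left _ _))
  have hj1' : 1 / (j : ℝ) < 1 := lt_of_lt_of_le hj1 ((min_le_right _ _).trans (min_le_right _ _))
  have hjj : 1 / ((j : ℝ) + 1) < 1 / j := one_div_lt_one_div_of_lt hj0 (by linarith)
  refine ⟨j, fun z hz y hy hzy => ?_⟩
  obtain ⟨hzU, hrho, hz6, -⟩ := hz
  have hA := AA_pos hzU
  have hD := DD_pos hzU
  have hB := BB_nonneg z
  have hrho' : AA z * BB z < 1 / (j + 1) * DD z := by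
    unfold rho at hrho
    rwa [div_lt_iff₀ hD] at hrho
  have hz4 : z 4 ≠ 0 := by
    intro h
    rw [DD_eq, h] at hrho' hD
    simp only [norm_zero] at hrho' hD
    have : 1 / ((j : ℝ) + 1) < 1 := by linarith
    nlinarith
  have hv : 0 < ‖z 4‖ ^ 2 := by positivity
  -- `A B ≤ |v|² / j`
  have hAB : AA z * BB z < ‖z 4‖ ^ 2 / j := by
    rw [DD_eq] at hrho'
    rw [lt_div_iff₀ hj0]
    have h1 : (AA z * BB z) * (j + 1) < AA z * BB z + ‖z 4‖ ^ 2 := by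
      have := mul_lt_mul_of_pos_right hrho' (show (0 : ℝ) < j + 1 by linarith)
      have e : 1 / ((j : ℝ) + 1) * (AA z * BB z + ‖z 4‖ ^ 2) * (j + 1) =
        AA z * BB z + ‖z 4‖ ^ 2 := by
        field_simp
      linarith
    linarith
  set α : ℝ := (√(AA z))⁻¹ with hα
  have hsA : 0 < √(AA z) := Real.sqrt_pos.mpr hA
  have hα0 : 0 < α := inv_pos.mpr hsA
  have hα2 : α ^ 2 * AA z = 1 := by
    rw [hα, inv_pow, Real.sq_sqrt hA.le, inv_mul_cancel₀ hA.ne']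
  set c : Fin 3 → ℂ := ![(α : ℂ), (z 4)⁻¹, (z 6)⁻¹] with hc
  have hcne : ∀ i, c i ≠ 0 := by
    intro i
    fin_cases i
    · show (α : ℂ) ≠ 0
      exact_mod_cast hα0.ne'
    · exact inv_ne_zero hz4
    · exact inv_ne_zero hz6
  set w : E7 := X2.act c z with hw
  have hw' : w = ![α * z 0, α * z 1, (α : ℂ)⁻¹ * (z 4)⁻¹ * z 2, (α : ℂ)⁻¹ * (z 4)⁻¹ * z 3, 1,
      z 5 / z 6, 1] := by
    rw [hw, act_eq]
    simp [hc, hz4, hz6, div_eq_inv_mul]
  set c' : Fin 3 → ℂ := ![(α : ℂ), 1, 1] with hc'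
  have hcne' : ∀ i, c' i ≠ 0 := by
    intro i
    fin_cases i
    · show (α : ℂ) ≠ 0
      exact_mod_cast hα0.ne'
    · exact one_ne_zero
    · exact one_ne_zero
  set u : E7 := ![z 0, z 1, 0, 0, 1, (y : ℂ), 1] with hu
  have huU : u ∈ X2.U := by
    rw [mem_U]
    have := (mem_U z).mp hzU
    refine ⟨?_, Or.inr (Or.inr ?_), Or.inr ?_⟩
    · simpa [hu] using this.1
    · simp [hu]
    · simp [hu]
  set w2 : E7 := X2.act c' u with hw2
  have hw2' : w2 = ![α * z 0, α * z 1, 0, 0, 1, (y : ℂ), 1] := by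
    rw [hw2, act_eq]
    simp [hc', hu]
  have e1 : a z = a w := (ha.2 z hzU c hcne).symm
  have e2 : a u = a w2 := (ha.2 u huU c' hcne').symm
  have hAAw : AA w = 1 := by
    rw [hw, AA_act]
    show ‖(α : ℂ)‖ ^ 2 * AA z = 1
    rw [Complex.norm_real, Real.norm_eq_abs, sq_abs, hα2]
  have hAAw2 : AA w2 = 1 := by
    rw [hw2, AA_act]
    show ‖(α : ℂ)‖ ^ 2 * AA u = 1
    have : AA u = AA z := by simp [AA, hu]
    rw [this, Complex.norm_real, Real.norm_eq_abs, sq_abs, hα2]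
  have hBBw : BB w < 1 / j := by
    have h1 : DD w = 1 * BB w + 1 := by
      rw [DD_eq, hAAw, hw']
      simp
    have h2 := DD_act hcne z
    have h3 : ‖c 1‖ ^ 2 * ‖z 4‖ ^ 2 = 1 := by
      show ‖(z 4)⁻¹‖ ^ 2 * ‖z 4‖ ^ 2 = 1
      rw [norm_inv, inv_pow, inv_mul_cancel₀ hv.ne']
    have h4 : BB w = ‖c 1‖ ^ 2 * (AA z * BB z) := by
      rw [← hw, h1, DD_eq] at h2
      linarith
    rw [h4]
    have h5 : 0 < ‖c 1‖ ^ 2 := by
      have := hcne 1
      positivity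
    calc ‖c 1‖ ^ 2 * (AA z * BB z) < ‖c 1‖ ^ 2 * (‖z 4‖ ^ 2 / j) := mul_lt_mul_of_pos_left hAB h5
      _ = 1 / j := by rw [← mul_div_assoc, h3]
  have hn2 : ‖w 2‖ ^ 2 ≤ BB w := by unfold BB; nlinarith [sq_nonneg ‖w 3‖]
  have hn3 : ‖w 3‖ ^ 2 ≤ BB w := by unfold BB; nlinarith [sq_nonneg ‖w 2‖]
  have h2δ : ‖w 2‖ < δ := by
    refine lt_of_pow_lt_pow_left₀ 2 hδ.le ?_
    linarith
  have h3δ : ‖w 3‖ < δ := by
    refine lt_of_pow_lt_pow_left₀ 2 hδ.le ?_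
    linarith
  have h21 : ‖w 2‖ ≤ 1 := by
    refine le_of_lt (lt_of_pow_lt_pow_left₀ 2 zero_le_one ?_)
    linarith
  have h31 : ‖w 3‖ ≤ 1 := by
    refine le_of_lt (lt_of_pow_lt_pow_left₀ 2 zero_le_one ?_)
    linarith
  have hyR : ‖(y : ℂ)‖ ≤ R := by
    rw [Complex.norm_real]; exact hR y hy
  have hzR : ‖z 5 / z 6‖ ≤ R + 1 := by
    have : ‖z 5 / z 6‖ ≤ ‖z 5 / z 6 - (y : ℂ)‖ + ‖(y : ℂ)‖ := by
      have := norm_add_le (z 5 / z 6 - (y : ℂ)) (y : ℂ)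
      simpa using this
    linarith
  have hwK : w ∈ KK (R + 1) := by
    refine ⟨hAAw, h21, h31, ?_, ?_, ?_⟩
    · rw [hw']; rfl
    · rw [hw']; exact hzR
    · rw [hw']; rfl
  have hw2K : w2 ∈ KK (R + 1) := by
    refine ⟨hAAw2, ?_, ?_, ?_, ?_, ?_⟩
    · rw [hw2']; simp
    · rw [hw2']; simp
    · rw [hw2']; rfl
    · rw [hw2']
      show ‖(y : ℂ)‖ ≤ R + 1
      linarith
    · rw [hw2']; rfl
  have hdist : dist w w2 < δ := by
    rw [dist_pi_lt_iff hδ]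
    intro i
    rw [dist_eq_norm]
    fin_cases i
    · show ‖w 0 - w2 0‖ < δ
      rw [hw', hw2']; simpa using hδ
    · show ‖w 1 - w2 1‖ < δ
      rw [hw', hw2']; simpa using hδ
    · show ‖w 2 - w2 2‖ < δ
      have : w2 2 = 0 := by rw [hw2']; rfl
      rw [this, sub_zero]; exact h2δ
    · show ‖w 3 - w2 3‖ < δ
      have : w2 3 = 0 := by rw [hw2']; rfl
      rw [this, sub_zero]; exact h3δ
    · show ‖w 4 - w2 4‖ < δ
      rw [hw', hw2']; simpa using hδ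
    · show ‖w 5 - w2 5‖ < δ
      have e5 : w 5 = z 5 / z 6 := by rw [hw']; rfl
      have e5' : w2 5 = (y : ℂ) := by rw [hw2']; rfl
      rw [e5, e5']
      linarith
    · show ‖w 6 - w2 6‖ < δ
      rw [hw', hw2']; simpa using hδ
  have := huc w hwK w2 hw2K hdist
  rw [Real.dist_eq] at this
  rw [e1, e2]
  exact this.le

end Pool.Agent.SIU.H17
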