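import Pool.Agent.Helper15_SIU.Stmts

/-!
# MP_021b97_an: SK0, Stokes' theorem for compactly supported forms on `ℂ⁴`
-/

set_option autoImplicit false

open MeasureTheory Filter Topology

namespace Pool.Agent.SIU.H17

theorem fderiv_eval {N k : ℕ} (Θ : (Fin N → ℂ) → Alt N k) (x v : Fin N → ℂ)
    (h : DifferentiableAt ℝ Θ x) (w : Fin k → Fin N → ℂ) :
    fderiv ℝ (fun y => Θ y w) x v = fderiv ℝ Θ x v w := by
  have h1 : HasFDerivAt (fun y => Θ y w)
      ((ContinuousAlternatingMap.apply ℝ (Fin N → ℂ) ℝ w).comp (fderiv ℝ Θ x)) x :=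
    (ContinuousAlternatingMap.apply ℝ (Fin N → ℂ) ℝ w).hasFDerivAt.comp x h.hasFDerivAt
  rw [h1.fderiv]
  rfl

theorem integral_term (Θ : (Fin 4 → ℂ) → Alt 4 7) (h : ContDiff ℝ 1 Θ) (hc : HasCompactSupport Θ)
    (v : Fin 4 → ℂ) (w : Fin 7 → Fin 4 → ℂ) :
    Integrable (fun x => fderiv ℝ Θ x v w) ∧ ∫ x, fderiv ℝ Θ x v w = 0 := by
  have hd : ∀ x, DifferentiableAt ℝ Θ x := fun x => (h.differentiable (by norm_num)) x
  set f : (Fin 4 → ℂ) → ℝ := fun y => Θ y w with hf
  have hfc : ContDiff ℝ 1 f :=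
    (ContinuousAlternatingMap.apply ℝ (Fin 4 → ℂ) ℝ w).contDiff.comp h
  have hfs : HasCompactSupport f := by
    refine hc.mono ?_
    intro x hx
    rw [Function.mem_support] at hx ⊢
    intro h0
    exact hx (by rw [hf]; simp [h0])
  have e : ∀ x, fderiv ℝ f x v = fderiv ℝ Θ x v w := fun x => fderiv_eval Θ x v (hd x) w
  have hcont : Continuous (fun x => fderiv ℝ f x v) :=
    (hfc.continuous_fderiv (by norm_num)).clm_apply continuous_const
  have hds : HasCompactSupport (fun x => fderiv ℝ f x v) := by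
    refine (hfs.fderiv ℝ).mono ?_
    intro x hx
    rw [Function.mem_support] at hx ⊢
    intro h0
    exact hx (by rw [h0]; rfl)
  have hi : Integrable (fun x => fderiv ℝ f x v) := hcont.integrable_of_hasCompactSupport hds
  have hfi : Integrable f := hfc.continuous.integrable_of_hasCompactSupport hfs
  have key := integral_mul_fderiv_eq_neg_fderiv_mul_of_integrable (μ := (volume : Measure (Fin 4 → ℂ)))
    (f := f) (g := fun _ => (1 : ℝ)) (v := v) (by simpa using hi) (by simp) (by simpa using hfi)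
    (fun x _ => (hfc.differentiable (by norm_num)) x) (fun x _ => differentiableAt_const _)
  simp only [fderiv_fun_const, Pi.zero_apply, _root_.zero_apply, mul_zero,
    integral_zero, mul_one] at key
  constructor
  · simpa only [e] using hi
  · have : ∫ x, fderiv ℝ f x v = 0 := by linarith
    simpa only [e] using this

theorem sk0 : Sk0Stmt := by
  intro Θ h hc
  have e : ∀ x, extDeriv Θ x (stdb 4 8) =
      ∑ i : Fin 8, (-1 : ℝ) ^ (i : ℕ) * fderiv ℝ Θ x (stdb 4 8 i) (i.removeNth (stdb 4 8)) := by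
    intro x
    rw [extDeriv_apply ((h.differentiable (by norm_num)) x)]
    refine Finset.sum_congr rfl fun i _ => ?_
    rw [fderiv_eval Θ x _ ((h.differentiable (by norm_num)) x), zsmul_eq_mul]
    simp
  simp only [e]
  rw [integral_finsetSum]
  · refine Finset.sum_eq_zero fun i _ => ?_
    rw [integral_const_mul, (integral_term Θ h hc _ _).2, mul_zero]
  · intro i _
    exact ((integral_term Θ h hc _ _).1).const_mul _

end Pool.Agent.SIU.H17
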